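import Pool.Agent.TH783.MC.Wf
import Pool.Agent.TH783.MD.Brg
import Pool.Agent.TH686.MC.Fun

set_option autoImplicit false

/-! Martin's conjecture and the patterns. -/

namespace Pool.Agent.TH783.MD

open FirstOrder FirstOrder.Language
open Pool.Agent.W889.FO
open Pool.Agent.W889.SD (Big)
open Pool.Agent.W889.FO.StE (LG gd)
open Pool.Agent.TH783.MD.Pat
open Pool.Agent.TH686.MC (FewCountableModels MartinN)

variable {r : ℕ}

/-- the complements have no vertices of small degree -/
theorem WS.big {s : Bool} {S : LG.Structure ℕ} (h : WS r s (fun _ _ => True) S) (hr : 1 ≤ r)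
    (hs : s = true → r = 1) (u : ℕ) : Big (gd S) u := by
  obtain ⟨Q, _, _, o1, o2, d1, d2, e, he⟩ := h.std hr hs
  obtain ⟨N, hN⟩ : ∃ N, ∀ m, N ≤ m → e u ≠ Tk.z m := by
    rcases hu : e u with ⟨k, q⟩ | i | i | i
    · exact ⟨0, fun m _ => by simp⟩
    · exact ⟨0, fun m _ => by simp⟩
    · exact ⟨0, fun m _ => by simp⟩
    · refine ⟨i + 1, fun m hm => ?_⟩
      simp only [ne_eq, Tk.z.injEq]
      omega
  have key : ∀ m, N ≤ m → gd S u (e.symm (Tk.z m)) := by
    intro m hm
    rw [he, e.apply_symm_apply]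
    intro h1
    exact not_to_z _ _ (h1.2 ⟨hN m hm, trivial⟩)
  have inj : ∀ m n : ℕ, m ≠ n → e.symm (Tk.z m) ≠ e.symm (Tk.z n) := by
    intro m n hmn h1
    have := e.symm.injective h1
    simp only [Tk.z.injEq] at this
    exact hmn this
  exact ⟨e.symm (Tk.z N), e.symm (Tk.z (N + 1)), e.symm (Tk.z (N + 2)), inj _ _ (by omega),
    inj _ _ (by omega), inj _ _ (by omega), key _ le_rfl, key _ (by omega), key _ (by omega)⟩

variable {L : FirstOrder.Language.{0, 0}}

/-- Martin's conjecture reduces to complete theories of graphs over pairs of orders. -/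
theorem ma_ws {s : Bool} {f : ℕ → ℕ → Prop} (hr : 1 ≤ r) (hf : ∀ a b, f a b → f b a)
    (hs : s = true → r = 1)
    (hV : ∀ T' : LG.Theory, T'.IsComplete → FewCountableModels T' → (∀ S : LG.Structure ℕ,
      @Theory.Model LG ℕ S T' → WS r s f S) → MartinN T')
    [Countable L.Symbols] (T : L.Theory) (hfew : FewCountableModels T) : MartinN T :=
  Pool.Agent.TH686.JF.martin_all (fun T' _ h2 h3 => martinS hr hf hs hV T' h2 h3) T hfew

/-- Martin's conjecture reduces to complete theories of flipped subdivided graphs. -/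
theorem ma_wf {s : Bool} {f : ℕ → ℕ → Prop} (hr : 1 ≤ r) (hf : ∀ a b, f a b → f b a)
    (hV : ∀ T' : LG.Theory, T'.IsComplete → FewCountableModels T' → (∀ S : LG.Structure ℕ,
      @Theory.Model LG ℕ S T' → FC.WF r s f S) → MartinN T')
    [Countable L.Symbols] (T : L.Theory) (hfew : FewCountableModels T) : MartinN T := by
  refine ma_ws (r := 1) (s := false) (f := fun _ _ => True) le_rfl (fun _ _ h => h) (by simp)
    (fun T' _ h2 h3 => FC.martinF hr hf hV T' h2 fun S hS => ?_) T hfew
  have h4 := h3 S hS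
  exact ⟨fun u v => h4.sy le_rfl (fun _ _ h => h) (by simp) u v,
    fun u => h4.irr le_rfl (by simp) u, fun u => h4.big le_rfl (by simp) u⟩

/-- crossings -/
theorem ma_crossing (hr : 1 ≤ r) (K : Kind) {F : Fin (r + 2) → Fin (r + 2) → Prop}
    (hF : ∀ a b, F a b → F b a)
    (hV : ∀ T' : LG.Theory, T'.IsComplete → FewCountableModels T' → (∀ S : LG.Structure ℕ,
      @Theory.Model LG ℕ S T' → InducedIn (crossing ℚ r K F hF) (gd S)) → MartinN T')
    [Countable L.Symbols] (T : L.Theory) (hfew : FewCountableModels T) : MartinN T := by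
  cases K with
  | star =>
    exact ma_wf (s := false) hr (nf_symm hF) (fun T' h1 h2 h3 => hV T' h1 h2 fun S hS =>
      brg1 (s := false) hF hr (h3 S hS)) T hfew
  | clique =>
    exact ma_wf (s := true) hr (nf_symm hF) (fun T' h1 h2 h3 => hV T' h1 h2 fun S hS =>
      brg1 (s := true) hF hr (h3 S hS)) T hfew
  | half =>
    exact ma_ws (s := false) hr (nf_symm hF) (by simp) (fun T' h1 h2 h3 => hV T' h1 h2
      fun S hS => brg2 hF hr (h3 S hS)) T hfew

/-- comparability grids -/
theorem ma_grid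
    (hV : ∀ T' : LG.Theory, T'.IsComplete → FewCountableModels T' → (∀ S : LG.Structure ℕ,
      @Theory.Model LG ℕ S T' → InducedIn (comparabilityGrid ℚ) (gd S)) → MartinN T')
    [Countable L.Symbols] (T : L.Theory) (hfew : FewCountableModels T) : MartinN T :=
  ma_ws (r := 1) (s := true) (f := fun _ _ => False) le_rfl (fun _ _ h => h) (fun _ => rfl)
    (fun T' h1 h2 h3 => hV T' h1 h2 fun S hS => brg3 (h3 S hS)) T hfew

end Pool.Agent.TH783.MD
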