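import Pool.Agent.TH686.MC.Mart

set_option autoImplicit false

/-! Supports of tuples which are determined up to finitely many possibilities, and the transfer of
Martin's conjecture. This file follows the files Sup and Mart of helper686 (TH686/MC) line by line;
the only change is that a tuple may have finitely many supports. -/

namespace Pool.Agent.TH783.MC

open FirstOrder FirstOrder.Language Filter
open Pool.Agent.W889.FO
open Pool.Agent.TH686.FO
open Pool.Agent.TH686.MC

variable {L L' : FirstOrder.Language.{0, 0}} [L.IsRelational] [L'.IsRelational]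

/-- a common witness among finitely many candidates -/
theorem fin_choice {α Θ : Type} {A : Set α} (hA : A.Finite) (P : Θ → Prop) (R : Θ → α → Prop)
    (h0 : ∃ t, P t) (hand : ∀ a b, P a → P b → ∃ c, P c ∧ ∀ w, R c w → R a w ∧ R b w) :
    ∃ t, P t ∧ ∀ w ∈ A, R t w → ∀ θ, P θ → R θ w := by
  induction A, hA using Set.Finite.induction_on with
  | empty =>
    obtain ⟨t, ht⟩ := h0
    exact ⟨t, ht, fun w hw => absurd hw (Set.notMem_empty w)⟩
  | @insert w A _ _ ih =>
    obtain ⟨t, ht, h1⟩ := ih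
    by_cases hw : ∀ θ, P θ → R θ w
    · refine ⟨t, ht, fun w' hw' h2 => ?_⟩
      rcases hw' with rfl | hw'
      · exact hw
      · exact h1 w' hw' h2
    · push Not at hw
      obtain ⟨θ, h2, h3⟩ := hw
      obtain ⟨c, h4, h5⟩ := hand t θ ht h2
      refine ⟨c, h4, fun w' hw' h6 => ?_⟩
      rcases hw' with rfl | hw'
      · exact absurd (h5 _ h6).2 h3
      · exact h1 w' hw' (h5 _ h6).1

/-- Every tuple has a definable support in the interpreted structure, which together with its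
shape determines the tuple up to isomorphism. -/
structure SupF (I : Itq L L') where
  /-- shapes -/
  Sh : ℕ → Type
  /-- size of the support -/
  wd : ∀ {m : ℕ}, Sh m → ℕ
  /-- the tuple has this shape and this support -/
  χ : ∀ {m : ℕ} (s : Sh m), L'.Structure ℕ → (Fin m → ℕ) → (Fin (wd s) → ℕ) → Prop
  fd : ∀ {m : ℕ} (s : Sh m), FD I.W (fun S (v : Fin m ⊕ Fin (wd s) → ℕ) =>
    χ s S (fun i => v (Sum.inl i)) (fun j => v (Sum.inr j)))
  dom : ∀ {m : ℕ} (s : Sh m) S u w, I.W S → χ s S u w → ∀ j, I.dom S (w j)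
  fin : ∀ {m : ℕ} (s : Sh m) S u, I.W S → {w | χ s S u w}.Finite
  tot : ∀ S, I.W S → ∀ {m : ℕ} (u : Fin m → ℕ), ∃ (s : Sh m) (w : Fin (wd s) → ℕ), χ s S u w
  up : ∀ S S', I.W S → I.W S' → ∀ e : @FirstOrder.Language.Equiv L ℕ ℕ (I.D S) (I.D S'),
    ∃ g : @FirstOrder.Language.Equiv L' ℕ ℕ S S', ∀ n x, I.lab S n x → I.lab S' (e n) (g x)
  lift : ∀ {m : ℕ} (s : Sh m) S S', I.W S → I.W S' → ∀ u w u' w', χ s S u w → χ s S' u' w' →
    ∀ e : @FirstOrder.Language.Equiv L ℕ ℕ (I.D S) (I.D S'),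
      (∀ j n, I.lab S n (w j) → I.lab S' (e n) (w' j)) →
      ∃ g : @FirstOrder.Language.Equiv L' ℕ ℕ S S', ∀ i, g (u i) = u' i

variable (I : Itq L L') (hs : SupF I)

include hs

/-- the type of a tuple is determined by the type of its support -/
theorem types_eqF [hc : ∀ n, Countable (L.BoundedFormula Empty n)]
    [hc' : ∀ n, Countable (L'.BoundedFormula Empty n)] {S S' : L'.Structure ℕ} (h : I.W S)
    (h' : I.W S') {m : ℕ} (s : hs.Sh m) {u u' : Fin m → ℕ} {w w' : Fin (hs.wd s) → ℕ}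
    (hχ : hs.χ s S u w) (hχ' : hs.χ s S' u' w')
    (hE : ∀ φ : L.BoundedFormula Empty (hs.wd s), Rz (I.D S) φ (fun j => lbl I S (w j)) ↔
      Rz (I.D S') φ (fun j => lbl I S' (w' j))) (ψ : L'.BoundedFormula Empty m) :
    Rz S ψ u ↔ Rz S' ψ u' := by
  let N := m + hs.wd s
  let q : Fin N ≃ Fin m ⊕ Fin (hs.wd s) := finSumFinEquiv.symm
  obtain ⟨S0, S0', t0, t0', h1, h2, e, he⟩ := rob I h h' (N := N) (fun x => Sum.elim u w (q x))
    (fun x => Sum.elim u' w' (q x)) (fun j => q.symm (Sum.inr j))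
    (fun j => by
      show I.dom S (Sum.elim u w (q (q.symm (Sum.inr j))))
      rw [Equiv.apply_symm_apply]
      exact hs.dom s S u w h hχ j)
    (fun j => by
      show I.dom S' (Sum.elim u' w' (q (q.symm (Sum.inr j))))
      rw [Equiv.apply_symm_apply]
      exact hs.dom s S' u' w' h' hχ' j)
    (fun φ => by
      simp only [Equiv.apply_symm_apply, Sum.elim_inr]
      exact hE φ)
  have w0 : I.W S0 := ax_eq I.axW (fun σ => by
    have := h1 0 σ Fin.elim0
    have e1 : (fun i : Fin 0 => t0 (Fin.elim0 i)) = Fin.elim0 := Subsingleton.elim _ _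
    have e2 : (fun i : Fin 0 => Sum.elim u w (q (Fin.elim0 i))) = Fin.elim0 :=
      Subsingleton.elim _ _
    rw [e1, e2] at this
    exact this.symm) h
  have w0' : I.W S0' := ax_eq I.axW (fun σ => by
    have := h2 0 σ Fin.elim0
    have e1 : (fun i : Fin 0 => t0' (Fin.elim0 i)) = Fin.elim0 := Subsingleton.elim _ _
    have e2 : (fun i : Fin 0 => Sum.elim u' w' (q (Fin.elim0 i))) = Fin.elim0 :=
      Subsingleton.elim _ _
    rw [e1, e2] at this
    exact this.symm) h'
  obtain ⟨χ0, hχ0⟩ := rz_of_fd ((hs.fd s).sub (fun x => q.symm x))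
  have k1 : hs.χ s S0 (fun i => t0 (q.symm (Sum.inl i))) (fun j => t0 (q.symm (Sum.inr j))) := by
    rw [← hχ0 S0 w0 t0]
    have h3 := h1 N χ0 id
    refine h3.2 ((hχ0 S h _).2 ?_)
    simp only [id, Equiv.apply_symm_apply, Sum.elim_inr, Sum.elim_inl]
    exact hχ
  have k2 : hs.χ s S0' (fun i => t0' (q.symm (Sum.inl i)))
      (fun j => t0' (q.symm (Sum.inr j))) := by
    rw [← hχ0 S0' w0' t0']
    have h3 := h2 N χ0 id
    refine h3.2 ((hχ0 S' h' _).2 ?_)
    simp only [id, Equiv.apply_symm_apply, Sum.elim_inr, Sum.elim_inl]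
    exact hχ'
  obtain ⟨g, hg⟩ := hs.lift s S0 S0' w0 w0' _ _ _ _ k1 k2 e (fun j n hn => by
    have h4 := he j
    rw [← lbl_eq w0 hn, h4]
    exact lbl_spec w0' (hs.dom s S0' _ _ w0' k2 j))
  have h5 := h1 m ψ (fun i => q.symm (Sum.inl i))
  have h6 := h2 m ψ (fun i => q.symm (Sum.inl i))
  simp only [Equiv.apply_symm_apply, Sum.elim_inl] at h5 h6
  rw [← h5, ← h6, rz_iso g]
  simp only [hg]

/-- elementary equivalence of expansions by invariant relations -/
theorem exp_eqF {ι : Type} {a : ι → ℕ} [hc : ∀ n, Countable ((Lx L a).BoundedFormula Empty n)]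
    [hc' : ∀ n, Countable ((Lx L' a).BoundedFormula Empty n)] {S S' : (Lx L' a).Structure ℕ}
    (h : (ixp I a).W S) (h' : (ixp I a).W S')
    (hE : ∀ φ : (Lx L a).BoundedFormula Empty 0, Rz ((ixp I a).D S) φ Fin.elim0 ↔
      Rz ((ixp I a).D S') φ Fin.elim0) (ψ : (Lx L' a).BoundedFormula Empty 0) :
    Rz S ψ Fin.elim0 ↔ Rz S' ψ Fin.elim0 := by
  have el : ∀ (S : (Lx L a).Structure ℕ) (φ : (Lx L a).BoundedFormula Empty 0)
      (x y : Fin 0 → ℕ), Rz S φ x ↔ Rz S φ y := fun S φ x y => by rw [Subsingleton.elim x y]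
  have el' : ∀ (S : (Lx L' a).Structure ℕ) (φ : (Lx L' a).BoundedFormula Empty 0)
      (x y : Fin 0 → ℕ), Rz S φ x ↔ Rz S φ y := fun S φ x y => by rw [Subsingleton.elim x y]
  obtain ⟨S0, S0', t0, t0', h1, h2, e, -⟩ := rob (ixp I a) h h' (N := 0) (k := 0) Fin.elim0
    Fin.elim0 Fin.elim0 (fun j => j.elim0) (fun j => j.elim0)
    (fun φ => ((el _ φ _ _).trans (hE φ)).trans (el _ φ _ _))
  have w0 : (ixp I a).W S0 := ax_eq (ixp I a).axW
    (fun σ => ((el' _ σ _ _).trans ((h1 0 σ Fin.elim0).symm)).trans (el' _ σ _ _)) h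
  have w0' : (ixp I a).W S0' := ax_eq (ixp I a).axW
    (fun σ => ((el' _ σ _ _).trans ((h2 0 σ Fin.elim0).symm)).trans (el' _ σ _ _)) h'
  let τ : Equiv.Perm ℕ := @FirstOrder.Language.Equiv.toEquiv (Lx L a) ℕ ℕ
    ((ixp I a).D S0) ((ixp I a).D S0') e
  obtain ⟨e', he'⟩ := siso_of (S := I.D (rd S0)) (S' := I.D (rd S0')) τ (fun n R v =>
    iso_rel e (Rx.old R : Rx L a n) v)
  obtain ⟨g, hg⟩ := hs.up (rd S0) (rd S0') w0.1 w0'.1 e'
  let σ : Equiv.Perm ℕ := @FirstOrder.Language.Equiv.toEquiv L' ℕ ℕ (rd S0) (rd S0') g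
  have key : ∀ (i : ι) (v : Fin (a i) → ℕ), px S0' i (fun j => σ (v j)) ↔ px S0 i v := by
    intro i v
    have hdm : ∀ x, I.dom (rd S0) x ↔ I.dom (rd S0') (σ x) := fun x =>
      I.fdom.iso w0.1 w0'.1 g (fun _ => x)
    by_cases hv : ∀ j, I.dom (rd S0) (v j)
    · choose c hc using fun j => I.ex_lab w0.1 (hv j)
      have h3 := (ixp I a).rel_iff w0 (Rx.new i : Rx L a (a i)) (u := v) (v := c) hc
      have h4 := (ixp I a).rel_iff w0' (Rx.new i : Rx L a (a i)) (u := fun j => σ (v j))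
        (v := fun j => τ (c j)) (fun j => by
          have := hg _ _ (hc j)
          rw [he'] at this
          exact this)
      have h5 := iso_rel e (Rx.new i : Rx L a (a i)) c
      exact (h4.symm.trans h5).trans h3
    · refine iff_of_false (fun h3 => hv fun j => ?_) (fun h3 => hv fun j => ?_)
      · exact (hdm _).2 (w0'.2.1 i _ h3 j)
      · exact w0.2.1 i _ h3 j
  obtain ⟨g', -⟩ := siso_of (S := S0) (S' := S0') σ (fun n R v => by
    cases R with
    | old R => exact iso_rel g R v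
    | new i => exact key i v)
  have h5 := h1 0 ψ Fin.elim0
  have h6 := h2 0 ψ Fin.elim0
  refine ((el' _ ψ _ _).trans h5.symm).trans (Iff.trans ?_ (h6.trans (el' _ ψ _ _)))
  exact (rz_iso g' ψ _).trans (el' _ ψ _ _)


omit hs in
/-- Transfer of Martin's conjecture. -/
theorem transferF [Countable (Σ n, L.Relations n)] [Countable (Σ n, L'.Relations n)]
    (I : Itq L L') (hs : SupF I) (T : L.Theory) (hfew : FewCountableModels T)
    (hex : ∀ M : L.Structure ℕ, @Theory.Model L ℕ M T → ∃ S, I.W S ∧ SIso (I.D S) M)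
    (hM : ∀ T' : L'.Theory, T'.IsComplete → FewCountableModels T' →
      (∀ S : L'.Structure ℕ, @Theory.Model L' ℕ S T' → I.W S) → MartinN T') : MartinN T := by
  classical
  intro M N hMT hNT hMN
  obtain ⟨S, hS, hSM⟩ := hex M hMT
  obtain ⟨S', hS', hSN⟩ := hex N hNT
  have cb : ∀ n, Countable (L.BoundedFormula Empty n) := cbf
  have cb' : ∀ n, Countable (L'.BoundedFormula Empty n) := cbf
  -- the two structures
  let St : Bool → L'.Structure ℕ := fun b => if b then S else S'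
  have hSt : ∀ b, I.W (St b) := fun b => by cases b <;> assumption
  have hTm : ∀ b, @Theory.Model L ℕ (I.D (St b)) T := by
    intro b
    cases b
    · exact hSN.symm.model hNT
    · exact hSM.symm.model hMT
  have hL1 : ∀ φ : L1 T 0, φ.Sat (I.D (St true)) Fin.elim0 ↔ φ.Sat (I.D (St false)) Fin.elim0 := by
    intro φ
    obtain ⟨g⟩ := hSM
    obtain ⟨g'⟩ := hSN
    have h1 := sat_iso g φ Fin.elim0
    have h2 := sat_iso g' φ Fin.elim0
    have e1 : (fun i : Fin 0 => g (Fin.elim0 i)) = Fin.elim0 := Subsingleton.elim _ _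
    have e2 : (fun i : Fin 0 => g' (Fin.elim0 i)) = Fin.elim0 := Subsingleton.elim _ _
    rw [e1] at h1
    rw [e2] at h2
    exact h1.trans ((hMN φ).trans h2.symm)
  -- the tuples, their shapes, supports and types
  let ι : Type := Bool × Σ m : ℕ, (Fin m → ℕ)
  choose sh sw hsw using fun i : ι => hs.tot (St i.1) (hSt i.1) i.2.2
  let a : ι → ℕ := fun i => hs.wd (sh i)
  let p : ∀ i : ι, Set (L.BoundedFormula Empty (a i)) := fun i =>
    {θ | Rz (I.D (St i.1)) θ (fun j => lbl I (St i.1) (sw i j))}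
  have hp : ∀ i, IsCompleteType T (p i) := fun i => ⟨I.D (St i.1), _, hTm i.1, rfl⟩
  have hpn : ∀ i θ, θ ∉ p i → θ.not ∈ p i := fun i θ h => (rz_not _ _ _).2 h
  -- the expansions
  let X : Bool → (Lx L' a).Structure ℕ := fun b => xp (St b) fun i v =>
    (∀ j, I.dom (St b) (v j)) ∧ ∀ θ ∈ p i, Rz (I.D (St b)) θ (fun j => lbl I (St b) (v j))
  have hrd : ∀ b, rd (X b) = St b := fun b => rd_xp _ _
  have hpx : ∀ b i v, px (X b) i v ↔ (∀ j, I.dom (St b) (v j)) ∧
      ∀ θ ∈ p i, Rz (I.D (St b)) θ (fun j => lbl I (St b) (v j)) := fun b i v => Iff.rfl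
  have hXW : ∀ b, (ixp I a).W (X b) := by
    intro b
    refine ⟨?_, ?_, ?_⟩
    · rw [hrd]
      exact hSt b
    · intro i u h
      rw [hrd]
      exact h.1
    · intro i u u' h h1 h2
      rw [hrd] at h1 h2
      refine ⟨h1, fun θ hθ => ?_⟩
      have e : (fun j => lbl I (St b) (u' j)) = fun j => lbl I (St b) (u j) := by
        funext j
        exact ((I.lab_eq (hSt b) (lbl_spec (hSt b) (h.1 j)) (lbl_spec (hSt b) (h1 j))).1
          (h2 j)).symm
      rw [e]
      exact h.2 θ hθ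
  have : Countable (Σ n, (Lx L a).Relations n) := countable_Lx
  have : Countable (Σ n, (Lx L' a).Relations n) := countable_Lx
  have cx : ∀ n, Countable ((Lx L a).BoundedFormula Empty n) := cbf
  have cx' : ∀ n, Countable ((Lx L' a).BoundedFormula Empty n) := cbf
  -- the interpreted expansions
  have hD1 : ∀ b (m : ℕ) (Q : L.Relations m) v,
      @Structure.RelMap (Lx L a) ℕ ((ixp I a).D (X b)) m (Rx.old Q) v ↔
        @Structure.RelMap L ℕ (I.D (St b)) m Q v := by
    intro b m Q v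
    have h1 : @Structure.RelMap (Lx L a) ℕ ((ixp I a).D (X b)) m (Rx.old Q) v ↔
      @Structure.RelMap L ℕ (I.D (rd (X b))) m Q v := Iff.rfl
    rw [hrd b] at h1
    exact h1
  have hD2 : ∀ b i (v : Fin (a i) → ℕ), px ((ixp I a).D (X b)) i v ↔
      ∀ θ ∈ p i, Rz (I.D (St b)) θ v := by
    intro b i v
    choose u hu using fun j => I.lab_surj (hSt b) (v j)
    have h1 := (ixp I a).rel_iff (hXW b) (Rx.new i : Rx L a (a i)) (u := u) (v := v) (fun j => by
      show I.lab (rd (X b)) (v j) (u j)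
      rw [hrd]
      exact hu j)
    refine Iff.trans h1 ((hpx b i u).trans ?_)
    have e : (fun j => lbl I (St b) (u j)) = v := funext fun j => lbl_eq (hSt b) (hu j)
    rw [e]
    exact ⟨fun h => h.2, fun h => ⟨fun j => (hu j).1, h⟩⟩
  have hXE : ∀ ψ : (Lx L' a).BoundedFormula Empty 0,
      Rz (X true) ψ Fin.elim0 ↔ Rz (X false) ψ Fin.elim0 := by
    refine exp_eqF I hs (hXW true) (hXW false) fun φ => ?_
    obtain ⟨φ', h1⟩ := to_L1 T p hp φ
    rw [← h1 _ _ (hD1 true) (hD2 true), ← h1 _ _ (hD1 false) (hD2 false)]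
    exact hL1 φ'
  -- the theory
  let T' : L'.Theory := @FirstOrder.Language.completeTheory L' ℕ S
  have hT' : T'.IsComplete := @FirstOrder.Language.completeTheory.isComplete L' ℕ S _
  have hmem : ∀ σ : L'.Sentence, σ ∈ T' ↔ @Sentence.Realize L' ℕ S σ := fun σ => Iff.rfl
  have hW' : ∀ S1 : L'.Structure ℕ, @Theory.Model L' ℕ S1 T' → I.W S1 := by
    intro S1 h1
    obtain ⟨T1, hT1⟩ := I.axW
    refine (hT1 S1).1 (ax_iff.2 fun φ hφ => ax_iff.1 h1 φ ?_)
    rw [hmem]
    exact ax_iff.1 ((hT1 S).2 hS) φ hφ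
  have hm' : ∀ S1 : L'.Structure ℕ, @Theory.Model L' ℕ S1 T' →
      @Theory.Model L ℕ (I.D S1) T := by
    intro S1 h1
    obtain ⟨T1, hT1⟩ := I.ax_theory T
    refine ((hT1 S1).1 (ax_iff.2 fun φ hφ => ax_iff.1 h1 φ ?_)).2
    rw [hmem]
    exact ax_iff.1 ((hT1 S).2 ⟨hS, hSM.symm.model hMT⟩) φ hφ
  have hfew' : FewCountableModels T' := by
    rintro ⟨f, hf1, hf2⟩
    refine hfew ⟨fun x => I.D (f x), fun x => hm' _ (hf1 x), fun x y h => hf2 x y ?_⟩
    obtain ⟨e⟩ := h
    obtain ⟨g, -⟩ := hs.up (f x) (f y) (hW' _ (hf1 x)) (hW' _ (hf1 y)) e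
    exact ⟨g⟩
  -- formulas of the fragment are formulas about types
  have key : ∀ {n : ℕ} (φ : L1 T' n), ∃ ψ : (Lx L' a).BoundedFormula Empty n,
      ∀ b v, φ.Sat (St b) v ↔ Rz (X b) ψ v := by
    intro n φ
    induction φ with
    | fo φ =>
      obtain ⟨ψ, hψ⟩ := rz_of_fd (fd_rd (a := a) (fd_rz (W := fun _ => True) φ id))
      refine ⟨ψ, fun b v => ?_⟩
      rw [hψ (X b) trivial v, hrd]
      exact Iff.rfl
    | @conj n k q hq v0 =>
      by_cases hreal : ∃ (b : Bool) (u : Fin k → ℕ), ∀ θ ∈ q, Rz (St b) θ u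
      · obtain ⟨b0, u, hu⟩ := hreal
        obtain ⟨S3, a3, -, hq3⟩ := hq
        have hqi : ∀ θ, θ ∈ q ↔ Rz (St b0) θ u := by
          intro θ
          refine ⟨hu θ, fun h1 => ?_⟩
          by_contra h2
          have h3 : θ.not ∈ q := by
            rw [hq3]
            rw [hq3] at h2
            exact (rz_not S3 θ a3).2 h2
          exact (rz_not _ _ _).1 (hu _ h3) h1
        let i : ι := (b0, ⟨k, u⟩)
        have hfd : FD (fun S : (Lx L' a).Structure ℕ => I.W (rd S))
            (fun S (v : Fin n → ℕ) => ∃ w : Fin (a i) → ℕ,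
              hs.χ (sh i) (rd S) (fun j => v (v0 j)) w ∧ px S i w) := by
          refine FD.ex (P := fun S (v : Fin n → ℕ) (w : Fin (a i) → ℕ) =>
            hs.χ (sh i) (rd S) (fun j => v (v0 j)) w ∧ px S i w) ?_
          refine FD.and ?_ (fd_px i fun j => Sum.inr j)
          exact (fd_rd (a := a) (hs.fd (sh i))).sub
            (Sum.elim (fun j => Sum.inl (v0 j)) (fun j => Sum.inr j))
        obtain ⟨ψ, hψ⟩ := rz_of_fd hfd
        refine ⟨ψ, fun b v => ?_⟩
        rw [hψ (X b) (by rw [hrd]; exact hSt b) v, hrd]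
        show (∀ θ ∈ q, Rz (St b) θ (fun j => v (v0 j))) ↔ _
        constructor
        · intro h1
          have hth : ∀ θ : L.BoundedFormula Empty (a i), θ ∈ p i → ∃ w : Fin (a i) → ℕ,
              hs.χ (sh i) (St b) (fun j => v (v0 j)) w ∧
                Rz (I.D (St b)) θ (fun j => lbl I (St b) (w j)) := by
            intro θ hθ
            obtain ⟨θ', hθ'⟩ := translate' I θ
            have hfe : FD I.W (fun S (x : Fin k → ℕ) => ∃ w : Fin (a i) → ℕ,
                hs.χ (sh i) S x w ∧ Rz S θ' w) := by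
              refine FD.ex (P := fun S (x : Fin k → ℕ) (w : Fin (a i) → ℕ) =>
                hs.χ (sh i) S x w ∧ Rz S θ' w) ?_
              exact (hs.fd (sh i)).and (fd_rz θ' fun j => Sum.inr j)
            obtain ⟨ε, hε⟩ := rz_of_fd hfe
            have h2 : ε ∈ q := by
              rw [hqi, hε _ (hSt b0)]
              refine ⟨sw i, hsw i, ?_⟩
              rw [hθ' _ (hSt b0) _ (fun j => lbl I (St b0) (sw i j)) (fun j =>
                lbl_spec (hSt b0) (hs.dom _ _ _ _ (hSt b0) (hsw i) j))]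
              exact hθ
            obtain ⟨w, h3, h4⟩ := (hε _ (hSt b) _).1 (h1 ε h2)
            refine ⟨w, h3, ?_⟩
            rwa [hθ' _ (hSt b) _ (fun j => lbl I (St b) (w j)) (fun j =>
                lbl_spec (hSt b) (hs.dom _ _ _ _ (hSt b) h3 j))] at h4
          obtain ⟨θ0, hθ0, hF⟩ := fin_choice (hs.fin (sh i) (St b) (fun j => v (v0 j)) (hSt b))
            (fun θ => θ ∈ p i) (fun θ w => Rz (I.D (St b)) θ (fun j => lbl I (St b) (w j)))
            ⟨⊤, by
              show Rz _ ⊤ _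
              exact fun h => h⟩
            (fun θ1 θ2 h1 h2 => ⟨θ1 ⊓ θ2,
              (@BoundedFormula.realize_inf L ℕ (I.D (St i.1)) _ _ θ1 θ2 _ _).2 ⟨h1, h2⟩,
              fun w h3 => (@BoundedFormula.realize_inf L ℕ (I.D (St b)) _ _ θ1 θ2 _ _).1 h3⟩)
          obtain ⟨w, h3, h4⟩ := hth θ0 hθ0
          exact ⟨w, h3, (hpx b i w).2 ⟨hs.dom _ _ _ _ (hSt b) h3, fun θ hθ => hF w h3 h4 θ hθ⟩⟩
        · rintro ⟨w, h3, h4⟩ θ hθ
          obtain ⟨-, h5⟩ := (hpx b i w).1 h4
          have h6 := types_eqF I hs (hSt b0) (hSt b) (sh i) (hsw i) h3 (fun φ => by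
            constructor
            · exact fun h7 => h5 φ h7
            · intro h7
              by_contra h8
              exact (rz_not _ _ _).1 (h5 _ (hpn i φ h8)) h7) θ
          exact h6.1 ((hqi θ).1 hθ)
      · refine ⟨⊥, fun b v => ?_⟩
        refine iff_of_false (fun h1 => hreal ⟨b, _, h1⟩) ?_
        exact fun h => h
    | not φ ih =>
      obtain ⟨ψ, hψ⟩ := ih
      exact ⟨ψ.not, fun b v => (not_congr (hψ b v)).trans (rz_not _ _ _).symm⟩
    | and φ1 φ2 ih1 ih2 =>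
      obtain ⟨ψ1, hψ1⟩ := ih1
      obtain ⟨ψ2, hψ2⟩ := ih2
      exact ⟨ψ1 ⊓ ψ2, fun b v => (and_congr (hψ1 b v) (hψ2 b v)).trans
        (@BoundedFormula.realize_inf (Lx L' a) ℕ (X b) _ _ ψ1 ψ2 _ _).symm⟩
    | @all n φ ih =>
      obtain ⟨ψ, hψ⟩ := ih
      exact ⟨ψ.all, fun b v => forall_congr' fun x => hψ b _⟩
  have hfin : ∀ φ : L1 T' 0, φ.Sat S Fin.elim0 ↔ φ.Sat S' Fin.elim0 := by
    intro φ
    obtain ⟨ψ, hψ⟩ := key φ
    exact (hψ true Fin.elim0).trans ((hXE ψ).trans (hψ false Fin.elim0).symm)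
  have hmS : @Theory.Model L' ℕ S T' := ax_iff.2 fun φ hφ => hφ
  have hmS' : @Theory.Model L' ℕ S' T' := by
    refine ax_iff.2 fun φ hφ => ?_
    have h1 := hfin (.fo (φ : L'.BoundedFormula Empty 0))
    exact (rz_sentence S' φ _).1 (h1.1 ((rz_sentence S φ _).2 hφ))
  have hiso := hM T' hT' hfew' hW' S S' hmS hmS' hfin
  exact hSM.symm.trans ((I.iso_down hS hiso).trans hSN)

end Pool.Agent.TH783.MC
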