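import Pool.Agent.TH686.MC.Tq
import Pool.Agent.TH783.MC.SupF
import Pool.Agent.W889.FO.StE

set_option autoImplicit false

/-! Interpretations in which all elements are definable over the interpreted structure up to
exchanges of twins. -/

namespace Pool.Agent.TH783.MC

open FirstOrder FirstOrder.Language Filter
open Pool.Agent.W889.FO
open Pool.Agent.W889.SD (Nth nth_equiv)
open Pool.Agent.TH686.FO
open Pool.Agent.TH686.MC

variable {L L' : FirstOrder.Language.{0, 0}}

/-- All elements are definable over the interpreted structure up to exchanges of twins. -/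
structure Gt [L.IsRelational] [L'.IsRelational] (I : Itp L L') where
  K : Type
  wd : K → ℕ
  χ : ∀ κ : K, L'.Structure ℕ → ℕ → (Fin (wd κ) → ℕ) → Prop
  fd : ∀ κ, FD I.W (fun S (v : Unit ⊕ Fin (wd κ) → ℕ) =>
    χ κ S (v (Sum.inl ())) (fun j => v (Sum.inr j)))
  dom : ∀ κ S x w, I.W S → χ κ S x w → ∀ j, I.dom S (w j)
  fin : ∀ κ S x, I.W S → {w | χ κ S x w}.Finite
  fx : ∀ κ S x x' w, I.W S → χ κ S x w → χ κ S x' w → x ≠ x' → ¬ I.dom S x ∧ ¬ I.dom S x' ∧
    ∃ g : @FirstOrder.Language.Equiv L' ℕ ℕ S S, ∀ y, g y = Equiv.swap x x' y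
  tot : ∀ S, I.W S → ∀ x, ∃ κ w, χ κ S x w
  up : ∀ S S', I.W S → I.W S' → ∀ π : {u // I.dom S u} ≃ {u // I.dom S' u},
    (∀ {n : ℕ} (R : L.Relations n) (u : Fin n → {u // I.dom S u}),
      I.rel R S (fun i => u i) ↔ I.rel R S' (fun i => π (u i))) →
    ∃ g : @FirstOrder.Language.Equiv L' ℕ ℕ S S', ∀ u (hu : I.dom S u), g u = π ⟨u, hu⟩

/-- supports -/
noncomputable def Gt.sup [L.IsRelational] [L'.IsRelational] {I : Itp L L'} (G : Gt I) :
    SupF (tq I) where
  Sh := fun m => (Fin m → G.K) × (Fin m → Fin m → Prop)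
  wd := fun {m} s => Nat.card (Σ i : Fin m, Fin (G.wd (s.1 i)))
  χ := fun {m} s S u w => (∀ i, G.χ (s.1 i) S (u i)
    (fun j => w (Finite.equivFin (Σ i : Fin m, Fin (G.wd (s.1 i))) ⟨i, j⟩))) ∧
    ∀ i i', u i = u i' ↔ s.2 i i'
  fd := fun {m} s => (FD.fin fun i => (G.fd (s.1 i)).sub
    (Sum.elim (fun _ => Sum.inl i)
      (fun j => Sum.inr (Finite.equivFin (Σ i : Fin m, Fin (G.wd (s.1 i))) ⟨i, j⟩)))).and <|
    FD.fin fun i => FD.fin fun i' => (FD.eq (Sum.inl i) (Sum.inl i')).iff (FD.const _)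
  dom := fun {m} s S u w h hχ j => by
    obtain ⟨⟨i, l⟩, rfl⟩ := (Finite.equivFin (Σ i : Fin m, Fin (G.wd (s.1 i)))).surjective j
    exact G.dom _ S _ _ h (hχ.1 i) l
  fin := fun {m} s S u h => by
    have h1 : {F : ∀ i : Fin m, Fin (G.wd (s.1 i)) → ℕ | ∀ i, F i ∈ {w | G.χ (s.1 i) S (u i) w}}.Finite :=
      Set.Finite.pi' fun i => G.fin _ S _ h
    refine (h1.preimage (f := fun (w : Fin (Nat.card (Σ i : Fin m, Fin (G.wd (s.1 i)))) → ℕ)
      (i : Fin m) (j : Fin (G.wd (s.1 i))) =>
        w (Finite.equivFin (Σ i : Fin m, Fin (G.wd (s.1 i))) ⟨i, j⟩)) ?_).subset ?_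
    · intro w _ w' _ hww
      funext j
      obtain ⟨⟨i, l⟩, rfl⟩ := (Finite.equivFin (Σ i : Fin m, Fin (G.wd (s.1 i)))).surjective j
      exact congrFun (congrFun hww i) l
    · intro w hw i
      exact hw.1 i
  tot := fun S h {m} u => by
    choose κ w hw using fun i => G.tot S h (u i)
    let w0 : (Σ i : Fin m, Fin (G.wd (κ i))) → ℕ := fun x => w x.1 x.2
    have hw0 : ∀ i, G.χ (κ i) S (u i) (fun j => w0 ⟨i, j⟩) := hw
    refine ⟨(κ, fun i i' => u i = u i'),
      fun j => w0 ((Finite.equivFin (Σ i : Fin m, Fin (G.wd (κ i)))).symm j), fun i => ?_,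
      fun i i' => Iff.rfl⟩
    simp only [Equiv.symm_apply_apply]
    exact hw0 i
  up := fun S S' h h' e => by
    obtain ⟨π, h1, h2⟩ := pi_of h h' e
    obtain ⟨g, hg⟩ := G.up S S' h h' π h1
    exact ⟨g, fun n x hx => by
      rw [hg x hx.1]
      exact h2 n x hx.1 hx⟩
  lift := fun {m} s S S' h h' u w u' w' hχ hχ' e he => by
    obtain ⟨π, h1, h2⟩ := pi_of h h' e
    obtain ⟨g, hg⟩ := G.up S S' h h' π h1
    have key : ∀ x : Σ i : Fin m, Fin (G.wd (s.1 i)),
        g (w (Finite.equivFin _ x)) = w' (Finite.equivFin _ x) := by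
      rintro ⟨i, l⟩
      have hd : I.dom S (w (Finite.equivFin _ ⟨i, l⟩)) := G.dom _ S _ _ h (hχ.1 i) l
      obtain ⟨n, hn⟩ := (tq I).ex_lab h hd
      have h3 := h2 n _ hd hn
      rw [← hg _ hd] at h3
      have h4 := he _ n hn
      exact ((tq I).lab_eq h' h3 h4).2 rfl
    have step : ∀ n : ℕ, n ≤ m → ∃ g : @FirstOrder.Language.Equiv L' ℕ ℕ S S',
        (∀ x : Σ i : Fin m, Fin (G.wd (s.1 i)),
          g (w (Finite.equivFin _ x)) = w' (Finite.equivFin _ x)) ∧
        ∀ i : Fin m, (i : ℕ) < n → g (u i) = u' i := by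
      intro n
      induction n with
      | zero => exact fun _ => ⟨g, key, fun i hi => absurd hi (Nat.not_lt_zero _)⟩
      | succ n ih =>
        intro hn
        obtain ⟨g1, k1, k2⟩ := ih (by omega)
        let i : Fin m := ⟨n, by omega⟩
        have hinj : ∀ a b, g1 a = g1 b → a = b := fun a b hab =>
          @FirstOrder.Language.Equiv.injective L' ℕ ℕ S S' g1 a b hab
        have h5 := (G.fd (s.1 i)).iso h h' g1 (Sum.elim (fun _ => u i)
          (fun j => w (Finite.equivFin (Σ i : Fin m, Fin (G.wd (s.1 i))) ⟨i, j⟩)))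
        have h6 : G.χ (s.1 i) S' (g1 (u i))
            (fun j => g1 (w (Finite.equivFin (Σ i : Fin m, Fin (G.wd (s.1 i))) ⟨i, j⟩))) :=
          h5.1 (hχ.1 i)
        simp only [k1] at h6
        by_cases heq : g1 (u i) = u' i
        · refine ⟨g1, k1, fun j hj => ?_⟩
          rcases Nat.lt_succ_iff_lt_or_eq.1 hj with hj | hj
          · exact k2 j hj
          · have : j = i := Fin.ext hj
            rw [this]
            exact heq
        · obtain ⟨d1, d2, σ, hσ⟩ := G.fx _ S' _ _ _ h' h6 (hχ'.1 i) heq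
          refine ⟨@FirstOrder.Language.Equiv.comp L' ℕ ℕ S S' ℕ S' σ g1, fun x => ?_,
            fun j hj => ?_⟩
          · show σ (g1 (w (Finite.equivFin _ x))) = _
            rw [k1, hσ, Equiv.swap_apply_of_ne_of_ne]
            · rintro h7
              exact d1 (h7 ▸ G.dom _ S' _ _ h' (hχ'.1 x.1) x.2)
            · rintro h7
              exact d2 (h7 ▸ G.dom _ S' _ _ h' (hχ'.1 x.1) x.2)
          · show σ (g1 (u j)) = _
            rw [hσ]
            rcases Nat.lt_succ_iff_lt_or_eq.1 hj with hj | hj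
            · rw [k2 j hj, Equiv.swap_apply_of_ne_of_ne]
              · intro h7
                have h8 : u j = u i := hinj _ _ ((k2 j hj).trans h7)
                have h9 : u' j = u' i := (hχ'.2 j i).2 ((hχ.2 j i).1 h8)
                exact heq (h7.symm.trans h9)
              · intro h7
                have h8 : u j = u i := (hχ.2 j i).2 ((hχ'.2 j i).1 h7)
                exact heq (by rw [← h8, k2 j hj, h7])
            · have : j = i := Fin.ext hj
              rw [this, Equiv.swap_apply_left]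
    obtain ⟨g2, -, k2⟩ := step m le_rfl
    exact ⟨g2, fun i => k2 i i.2⟩

/-- exchanges of twins in graphs -/
theorem swap_gd {S : StE.LG.Structure ℕ} {x x' : ℕ}
    (hs : ∀ u v, StE.gd S u v → StE.gd S v u) (hi : ∀ u, ¬ StE.gd S u u)
    (h : ∀ w, w ≠ x → w ≠ x' → (StE.gd S w x ↔ StE.gd S w x')) :
    ∃ g : @FirstOrder.Language.Equiv StE.LG ℕ ℕ S S, ∀ y, g y = Equiv.swap x x' y := by
  have hs' : ∀ u v, StE.gd S u v ↔ StE.gd S v u := fun u v => ⟨hs _ _, hs _ _⟩
  have hk : ∀ u v, StE.gd S (Equiv.swap x x' u) (Equiv.swap x x' v) ↔ StE.gd S u v := by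
    intro u v
    by_cases h1 : u = x
    · by_cases h2 : v = x
      · rw [h1, h2]
        exact iff_of_false (hi _) (hi _)
      by_cases h3 : v = x'
      · rw [h1, h3, Equiv.swap_apply_left, Equiv.swap_apply_right]
        exact hs' _ _
      · rw [h1, Equiv.swap_apply_left, Equiv.swap_apply_of_ne_of_ne h2 h3, hs', hs' x v]
        exact (h v h2 h3).symm
    by_cases h1' : u = x'
    · by_cases h2 : v = x
      · rw [h1', h2, Equiv.swap_apply_left, Equiv.swap_apply_right]
        exact hs' _ _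
      by_cases h3 : v = x'
      · rw [h1', h3]
        exact iff_of_false (hi _) (hi _)
      · rw [h1', Equiv.swap_apply_right, Equiv.swap_apply_of_ne_of_ne h2 h3, hs', hs' x' v]
        exact h v h2 h3
    rw [Equiv.swap_apply_of_ne_of_ne h1 h1']
    by_cases h2 : v = x
    · rw [h2, Equiv.swap_apply_left]
      exact (h u h1 h1').symm
    by_cases h3 : v = x'
    · rw [h3, Equiv.swap_apply_right]
      exact h u h1 h1'
    · rw [Equiv.swap_apply_of_ne_of_ne h2 h3]
  refine siso_of (S := S) (S' := S) (Equiv.swap x x') fun n Q v => ?_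
  cases Q with
  | adj =>
    have := hk (v 0) (v 1)
    unfold StE.gd at this
    have e1 : ![v 0, v 1] = v := by
      funext m
      fin_cases m <;> rfl
    have e2 : ![Equiv.swap x x' (v 0), Equiv.swap x x' (v 1)] = fun i => Equiv.swap x x' (v i) := by
      funext m
      fin_cases m <;> rfl
    rw [e1, e2] at this
    exact this

/-- isomorphisms of graphs, with their values -/
theorem iso_gd {S S' : StE.LG.Structure ℕ} (σ : Equiv.Perm ℕ)
    (h : ∀ u v, StE.gd S' (σ u) (σ v) ↔ StE.gd S u v) :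
    ∃ g : @FirstOrder.Language.Equiv StE.LG ℕ ℕ S S', ∀ y, g y = σ y := by
  refine siso_of (S := S) (S' := S') σ fun n Q v => ?_
  cases Q with
  | adj =>
    have := h (v 0) (v 1)
    unfold StE.gd at this
    have e1 : ![v 0, v 1] = v := by
      funext m
      fin_cases m <;> rfl
    have e2 : ![σ (v 0), σ (v 1)] = fun i => σ (v i) := by
      funext m
      fin_cases m <;> rfl
    rw [e1, e2] at this
    exact this

end Pool.Agent.TH783.MC
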