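import Pool.Agent.TH783.MC.Ws
import Pool.Agent.TH783.FC.Itp

set_option autoImplicit false
set_option linter.unusedSectionVars false

/-! Supports in flipped subdivided graphs. -/

namespace Pool.Agent.TH783.FC

open FirstOrder FirstOrder.Language
open Pool.Agent.W889.SD
open Pool.Agent.W889.FO
open Pool.Agent.W889.FO.StE (LG gd siso_gd)
open Pool.Agent.W889.FO.StA (FD.all1 FD.ex1)

/-- Subdivided graphs are determined by the graph on the big vertices. -/
theorem subd_ext0 {T : Type} {k : ℕ} {y : T → T → Prop} {S : Type} {z : S → S → Prop} (hy : Subd k y) (hz : Subd k z)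
    (π : {u // Big y u} ≃ {u // Big z u})
    (hπ : ∀ u v : {u // Big y u}, Adj' k y u v ↔ Adj' k z (π u) (π v))
    (ι : {u // ∀ v, ¬ y u v} ≃ {u // ∀ v, ¬ z u v}) :
    ∃ e : T ≃ S, (∀ u v, y u v ↔ z (e u) (e v)) ∧ ∀ u (hu : Big y u), e u = π ⟨u, hu⟩ := by
  classical
  -- the correspondence
  let R : T → S → Prop := fun u v =>
    (∃ hu : Big y u, v = π ⟨u, hu⟩) ∨ (∃ hu : ∀ v, ¬ y u v, v = ι ⟨u, hu⟩) ∨
    ∃ (w w' : {u // Big y u}) (p : Fin (k + 1) → T) (q : Fin (k + 1) → S) (i : Fin (k + 1)),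
      Pth k y w p w' ∧ Pth k z (π w) q (π w') ∧ u = p i ∧ v = q i
  -- the ends of the paths
  have pos : ∀ {w p w'}, Pth k y w p w' → ∀ i, ∃ v, y (p i) v := by
    intro w p w' hp i
    by_cases hi : (i : ℕ) = k
    · exact ⟨_, hp.en i hi⟩
    · exact ⟨_, hp.mid i ⟨i + 1, by have := i.2; omega⟩ rfl⟩
  have nIB : ∀ u, Big y u → ¬ ∀ v, ¬ y u v := fun u ⟨a, _, _, _, _, _, h, _⟩ h' => h' a h
  have h1 : ∀ s, ∃ t, R s t := by
    intro u
    by_cases hu : Big y u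
    · exact ⟨_, Or.inl ⟨hu, rfl⟩⟩
    · rcases hy.cov u hu with h | ⟨w, p, w', i, h, h'⟩
      · exact ⟨_, Or.inr (Or.inl ⟨h, rfl⟩)⟩
      · obtain ⟨q, hq⟩ := (hπ ⟨w, h.bw⟩ ⟨w', h.bw'⟩).1 ⟨p, h⟩
        exact ⟨q i, Or.inr (Or.inr ⟨⟨w, h.bw⟩, ⟨w', h.bw'⟩, p, q, i, h, hq, h'.symm, rfl⟩)⟩
  have h2 : ∀ t, ∃ s, R s t := by
    intro u
    by_cases hu : Big z u
    · refine ⟨π.symm ⟨u, hu⟩, Or.inl ⟨(π.symm ⟨u, hu⟩).2, ?_⟩⟩
      simp
    · rcases hz.cov u hu with h | ⟨w, p, w', i, h, h'⟩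
      · refine ⟨ι.symm ⟨u, h⟩, Or.inr (Or.inl ⟨(ι.symm ⟨u, h⟩).2, ?_⟩)⟩
        simp
      · obtain ⟨v, hv⟩ := π.surjective ⟨w, h.bw⟩
        obtain ⟨v', hv'⟩ := π.surjective ⟨w', h.bw'⟩
        have e1 : (π v : S) = w := by rw [hv]
        have e2 : (π v' : S) = w' := by rw [hv']
        obtain ⟨q, hq⟩ := (hπ v v').2 ⟨p, by rw [e1, e2]; exact h⟩
        exact ⟨q i, Or.inr (Or.inr ⟨v, v', q, p, i, hq, by rw [e1, e2]; exact h, rfl, h'.symm⟩)⟩
  have h3 : ∀ s t t', R s t → R s t' → t = t' := by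
    rintro u v v' (⟨h, rfl⟩ | ⟨h, rfl⟩ | ⟨w, w', p, q, i, h, h', h'', rfl⟩)
      (⟨k1, rfl⟩ | ⟨k1, rfl⟩ | ⟨x, x', p', q', i', k1, k2, k3, rfl⟩)
    · rfl
    · exact absurd k1 (nIB u h)
    · exact absurd (k3 ▸ h) (k1.nb i')
    · exact absurd h (nIB u k1)
    · rfl
    · obtain ⟨v, hv⟩ := pos k1 i'
      exact absurd (k3 ▸ hv) (h v)
    · exact absurd (h'' ▸ k1) (h.nb i)
    · obtain ⟨v, hv⟩ := pos h i
      exact absurd (h'' ▸ hv) (k1 v)
    · rcases hy.uniq w p w' x p' x' i i' h k1 (h''.symm.trans k3) with ⟨e1, e2, e3⟩ | ⟨e1, e2, e3⟩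
      · have e1' := Subtype.ext e1
        have e2' := Subtype.ext e2
        subst e1' e2' e3
        rw [hz.uq _ _ _ _ h' k2]
      · have e1' := Subtype.ext e1
        have e2' := Subtype.ext e2
        subst e1' e2'
        have := hz.uq _ _ _ _ h' (k2.rev hz.symm)
        rw [this]
        show q' i.rev = q' i'
        congr 1
        apply Fin.ext
        rw [Fin.val_rev]
        omega
  have h4 : ∀ s s' t, R s t → R s' t → s = s' := by
    have nIB' : ∀ u, Big z u → ¬ ∀ v, ¬ z u v := fun u ⟨a, _, _, _, _, _, h, _⟩ h' => h' a h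
    have pos' : ∀ {w p w'}, Pth k z w p w' → ∀ i, ∃ v, z (p i) v := by
      intro w p w' hp i
      by_cases hi : (i : ℕ) = k
      · exact ⟨_, hp.en i hi⟩
      · exact ⟨_, hp.mid i ⟨i + 1, by have := i.2; omega⟩ rfl⟩
    rintro u u' v (⟨h, h'⟩ | ⟨h, h'⟩ | ⟨w, w', p, q, i, h, h', h'', e⟩)
      (⟨k1, k2⟩ | ⟨k1, k2⟩ | ⟨x, x', p', q', i', k1, k2, k3, e'⟩)
    · have := π.injective (Subtype.ext (h'.symm.trans k2))
      exact congrArg Subtype.val this
    · have b1 : Big z v := by rw [h']; exact (π _).2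
      have b2 : ∀ t, ¬ z v t := by rw [k2]; exact (ι _).2
      exact absurd b2 (nIB' v b1)
    · have b1 : Big z v := by rw [h']; exact (π _).2
      exact absurd (e' ▸ b1) (k2.nb i')
    · have b1 : Big z v := by rw [k2]; exact (π _).2
      have b2 : ∀ t, ¬ z v t := by rw [h']; exact (ι _).2
      exact absurd b2 (nIB' v b1)
    · have := ι.injective (Subtype.ext (h'.symm.trans k2))
      exact congrArg Subtype.val this
    · have b2 : ∀ t, ¬ z v t := by rw [h']; exact (ι _).2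
      obtain ⟨t, ht⟩ := pos' k2 i'
      exact absurd (e' ▸ ht) (b2 t)
    · have b1 : Big z v := by rw [k2]; exact (π _).2
      exact absurd (e ▸ b1) (h'.nb i)
    · have b2 : ∀ t, ¬ z v t := by rw [k2]; exact (ι _).2
      obtain ⟨t, ht⟩ := pos' h' i
      exact absurd (e ▸ ht) (b2 t)
    · rcases hz.uniq _ q _ _ q' _ i i' h' k2 (e.symm.trans e') with ⟨e1, e2, e3⟩ | ⟨e1, e2, e3⟩
      · have e1' := π.injective (Subtype.ext e1)
        have e2' := π.injective (Subtype.ext e2)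
        subst e1' e2' e3
        rw [h'', k3, hy.uq _ _ _ _ h k1]
      · have e1' := π.injective (Subtype.ext e1)
        have e2' := π.injective (Subtype.ext e2)
        subst e1' e2'
        have := hy.uq _ _ _ _ h (k1.rev hy.symm)
        rw [h'', k3, this]
        show p' i.rev = p' i'
        congr 1
        apply Fin.ext
        rw [Fin.val_rev]
        omega
  obtain ⟨e, he⟩ := equiv_of_rel R h1 h2 h3 h4
  -- adjacency
  have key : ∀ u u' v v', R u v → R u' v' → y u u' → z v v' := by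
    have main : ∀ u u' v v' (w w' : {u // Big y u}) (p : Fin (k + 1) → T) (q : Fin (k + 1) → S)
        (i : Fin (k + 1)), Pth k y w p w' → Pth k z (π w) q (π w') → u = p i → v = q i →
        R u' v' → y u u' → z v v' := by
      intro u u' v v' w w' p q i h h' hu hv hr hyy
      subst hu hv
      rcases hy.cl w p w' i u' h hyy with ⟨e1, e2⟩ | ⟨e1, e2⟩ | ⟨j, e1, e2⟩
      · subst e1
        have e3 : v' = π w := h3 _ _ _ hr (Or.inl ⟨w.2, rfl⟩)
        rw [e3]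
        exact hz.symm _ _ (h'.st i e2)
      · subst e1
        have e3 : v' = π w' := h3 _ _ _ hr (Or.inl ⟨w'.2, rfl⟩)
        rw [e3]
        exact h'.en i e2
      · subst e1
        have e3 : v' = q j := h3 _ _ _ hr (Or.inr (Or.inr ⟨w, w', p, q, j, h, h', rfl, rfl⟩))
        rw [e3]
        rcases e2 with e2 | e2
        · exact h'.mid i j e2
        · exact hz.symm _ _ (h'.mid j i e2)
    intro u u' v v' hr hr' hyy
    rcases hr with ⟨h, hv⟩ | ⟨h, hv⟩ | ⟨w, w', p, q, i, h, h', hu, hv⟩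
    · rcases hr' with ⟨k1, k2⟩ | ⟨k1, k2⟩ | ⟨x, x', p', q', i', k1, k2, k3, k4⟩
      · exact absurd hyy (hy.indep _ _ h k1)
      · exact absurd (hy.symm _ _ hyy) (k1 _)
      · exact hz.symm _ _ (main u' u v' v x x' p' q' i' k1 k2 k3 k4 (Or.inl ⟨h, hv⟩)
          (hy.symm _ _ hyy))
    · exact absurd hyy (h _)
    · exact main u u' v v' w w' p q i h h' hu hv hr' hyy
  have key' : ∀ u u' v v', R u v → R u' v' → z v v' → y u u' := by
    have main : ∀ u u' v v' (w w' : {u // Big y u}) (p : Fin (k + 1) → T) (q : Fin (k + 1) → S)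
        (i : Fin (k + 1)), Pth k y w p w' → Pth k z (π w) q (π w') → u = p i → v = q i →
        R u' v' → z v v' → y u u' := by
      intro u u' v v' w w' p q i h h' hu hv hr hyy
      subst hu hv
      rcases hz.cl _ q _ i v' h' hyy with ⟨e1, e2⟩ | ⟨e1, e2⟩ | ⟨j, e1, e2⟩
      · subst e1
        have e3 : u' = w := h4 _ _ _ hr (Or.inl ⟨w.2, rfl⟩)
        rw [e3]
        exact hy.symm _ _ (h.st i e2)
      · subst e1
        have e3 : u' = w' := h4 _ _ _ hr (Or.inl ⟨w'.2, rfl⟩)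
        rw [e3]
        exact h.en i e2
      · subst e1
        have e3 : u' = p j := h4 _ _ _ hr (Or.inr (Or.inr ⟨w, w', p, q, j, h, h', rfl, rfl⟩))
        rw [e3]
        rcases e2 with e2 | e2
        · exact h.mid i j e2
        · exact hy.symm _ _ (h.mid j i e2)
    intro u u' v v' hr hr' hyy
    rcases hr with ⟨h, hv⟩ | ⟨h, hv⟩ | ⟨w, w', p, q, i, h, h', hu, hv⟩
    · rcases hr' with ⟨k1, k2⟩ | ⟨k1, k2⟩ | ⟨x, x', p', q', i', k1, k2, k3, k4⟩
      · rw [hv, k2] at hyy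
        exact absurd hyy (hz.indep _ _ (π _).2 (π _).2)
      · rw [hv, k2] at hyy
        exact absurd (hz.symm _ _ hyy) ((ι _).2 _)
      · exact hy.symm _ _ (main u' u v' v x x' p' q' i' k1 k2 k3 k4 (Or.inl ⟨h, hv⟩)
          (hz.symm _ _ hyy))
    · rw [hv] at hyy
      exact absurd hyy ((ι _).2 _)
    · exact main u u' v v' w w' p q i h h' hu hv hr' hyy
  exact ⟨e, fun u v => ⟨key _ _ _ _ (he u) (he v), key' _ _ _ _ (he u) (he v)⟩,
    fun u hu => h3 _ _ _ (he u) (Or.inl ⟨hu, rfl⟩)⟩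

/-- the graph on the roots determines the structure -/
theorem W1.ext0 {r : ℕ} {f : ℕ → ℕ → Prop} {X fl X' fl' : ℕ → ℕ → Prop} (h : W1 r f X fl) (h' : W1 r f X' fl') (π : {u // Big X u} ≃ {u // Big X' u})
    (hπ : ∀ u v : {u // Big X u}, Adj' (2 * r) X u v ↔ Adj' (2 * r) X' (π u) (π v)) :
    ∃ e : ℕ ≃ ℕ, (∀ u v, X u v ↔ X' (e u) (e v)) ∧ (∀ u v, fl u v ↔ fl' (e u) (e v)) ∧
      ∀ u (hu : Big X u), e u = π ⟨u, hu⟩ := by
  classical
  obtain ⟨ι, hι⟩ := fib_equiv (fun i : {u // ∀ v, ¬ X u v} => ty r X fl i)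
    (fun i : {u // ∀ v, ¬ X' u v} => ty r X' fl' i) (h.fib h')
  obtain ⟨e, he, heb⟩ := subd_ext0 h.sd h'.sd π hπ ι
  let E : ℕ ≃ ℕ := (Equiv.sumCompl fun u => ∀ v, ¬ X u v).symm.trans
    ((Equiv.sumCongr ι (e.subtypeEquiv fun u => not_congr (iso_map e he u))).trans
      (Equiv.sumCompl fun u => ∀ v, ¬ X' u v))
  have E1 : ∀ u (hu : ∀ v, ¬ X u v), E u = ι ⟨u, hu⟩ := by
    intro u hu
    show (Equiv.sumCompl _) ((Equiv.sumCongr ι _) ((Equiv.sumCompl _).symm u)) = _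
    rw [Equiv.sumCompl_symm_apply_of_pos hu]
    rfl
  have E2 : ∀ u (hu : ¬ ∀ v, ¬ X u v), E u = e u := by
    intro u hu
    show (Equiv.sumCompl _) ((Equiv.sumCongr ι _) ((Equiv.sumCompl _).symm u)) = _
    rw [Equiv.sumCompl_symm_apply_of_neg hu]
    rfl
  have hX : ∀ u v, X u v ↔ X' (E u) (E v) := by
    intro u v
    by_cases hu : ∀ v, ¬ X u v
    · have h1 := (ι ⟨u, hu⟩).2
      rw [E1 u hu]
      exact ⟨fun h2 => absurd h2 (hu v), fun h2 => absurd h2 (h1 _)⟩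
    · by_cases hv : ∀ u, ¬ X v u
      · have h1 := (ι ⟨v, hv⟩).2
        rw [E1 v hv]
        exact ⟨fun h2 => absurd (h.sd.symm _ _ h2) (hv u),
          fun h2 => absurd (h'.sd.symm _ _ h2) (h1 _)⟩
      · rw [E2 u hu, E2 v hv]
        exact he u v
  refine ⟨E, hX, ?_, fun u hu => ?_⟩
  rotate_left
  · rw [E2 u (fun h' => ?_)]
    · exact heb u hu
    · obtain ⟨a, _, _, _, _, _, h2, _⟩ := hu
      exact h' a h2
  have hla : ∀ u (a : Fin (r + 2)), La r f X fl u a → La r f X' fl' (E u) a := by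
    intro u a ha
    rcases ha with ha | ⟨hu, ha⟩
    · exact Or.inl ((ly_map E hX u a).1 ha)
    · refine Or.inr ⟨(iso_map E hX u).1 hu, ?_⟩
      rw [E1 u hu]
      refine h'.tt_of_ty (ι ⟨u, hu⟩).2 a fun b => ?_
      have h1 := hι ⟨u, hu⟩
      have h2 : ty r X' fl' (ι ⟨u, hu⟩) b ↔ ty r X fl u b := iff_of_eq (congrFun h1 b)
      rw [h2]
      exact ((h.ty_iff a).1 ha).1 b
  intro u v
  obtain ⟨a, ha⟩ := h.cov u
  obtain ⟨b, hb⟩ := h.cov v
  rw [h.fli a b u v ha hb, h'.fli a b _ _ (hla u a ha) (hla v b hb), E.injective.ne_iff]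


/-- kinds of vertices -/
inductive Kn (r : ℕ) : Type
  | b : Kn r
  | c (i : Fin (2 * r + 1)) : Kn r
  | z (a : Fin (r + 2)) : Kn r

/-- number of roots in the support -/
def Kn.wd {r : ℕ} : Kn r → ℕ
  | Kn.b => 1
  | Kn.c _ => 2
  | Kn.z _ => 0

/-- the vertex of a kind over its support -/
def Kn.ch {r : ℕ} (f : ℕ → ℕ → Prop) (X fl : ℕ → ℕ → Prop) (x : ℕ) :
    (κ : Kn r) → (Fin κ.wd → ℕ) → Prop
  | Kn.b, w => Big X x ∧ w (0 : Fin 1) = x
  | Kn.c i, w => ∃ p : Fin (2 * r + 1) → ℕ, Pth (2 * r) X (w (0 : Fin 2)) p (w (1 : Fin 2)) ∧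
      p i = x
  | Kn.z a, _ => (∀ v, ¬ X x v) ∧ TT r f X fl x a

section

variable {r : ℕ} {s : Bool} {f : ℕ → ℕ → Prop} {X fl : ℕ → ℕ → Prop} {S S' : LG.Structure ℕ}

theorem W1.kinds (h : W1 r f X fl) (x : ℕ) : ∃ (κ : Kn r) (w : Fin κ.wd → ℕ),
    κ.ch f X fl x w := by
  by_cases hx : Big X x
  · exact ⟨Kn.b, fun _ => x, hx, rfl⟩
  · rcases h.sd.cov x hx with h1 | ⟨w, p, w', i, h1, h2⟩
    · obtain ⟨a, ha⟩ := h.cov x
      rcases ha with ha | ⟨-, ha⟩
      · obtain ⟨v, hv⟩ := ly_noniso ha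
        exact absurd hv (h1 v)
      · exact ⟨Kn.z a, Fin.elim0, h1, ha⟩
    · exact ⟨Kn.c i, (![w, w'] : Fin 2 → ℕ), p, h1, h2⟩

theorem W1.fin (h : W1 r f X fl) (x : ℕ) (κ : Kn r) : {w | κ.ch f X fl x w}.Finite := by
  rcases κ with _ | i | a
  · refine Set.Subsingleton.finite fun w hw w' hw' => ?_
    funext j
    have hj : j = (0 : Fin 1) := Subsingleton.elim (α := Fin 1) _ _
    rw [hj]
    exact hw.2.trans hw'.2.symm
  · by_cases hne : ∃ w, w ∈ {w | (Kn.c i : Kn r).ch f X fl x w}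
    · obtain ⟨w, p, hw, hp⟩ := hne
      refine (Set.toFinite ({(![w (0 : Fin 2), w (1 : Fin 2)] : Fin 2 → ℕ),
        (![w (1 : Fin 2), w (0 : Fin 2)] : Fin 2 → ℕ)} : Set (Fin 2 → ℕ))).subset ?_
      rintro v ⟨q, hv, hq⟩
      rcases h.sd.uniq _ p _ _ q _ i i hw hv (hp.trans hq.symm) with ⟨e1, e2, -⟩ | ⟨e1, e2, -⟩
      · left
        funext j
        fin_cases j
        · exact e1
        · exact e2
      · right
        funext j
        fin_cases j
        · exact e1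
        · exact e2
    · refine (Set.finite_empty).subset fun w hw => (hne ⟨w, hw⟩).elim
  · refine Set.Subsingleton.finite fun w hw w' hw' => ?_
    exact funext fun j => j.elim0

/-- twins -/
theorem WF.swap (h : WF r s f S) (hr : 1 ≤ r) (hf : ∀ a b, f a b → f b a) {a : Fin (r + 2)}
    {x x' : ℕ} (hx : (∀ v, ¬ Xd s S x v) ∧ TT r f (Xd s S) (fd S) x a)
    (hx' : (∀ v, ¬ Xd s S x' v) ∧ TT r f (Xd s S) (fd S) x' a) :
    ∃ g : @FirstOrder.Language.Equiv LG ℕ ℕ S S, ∀ y, g y = Equiv.swap x x' y := by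
  have hS := h.sub hr
  refine MC.swap_gd (fun u v => sub_symm hS hf) (sub_irr hS) fun v h1 h2 => ?_
  rw [h.eq, h.eq]
  unfold flip
  have e1 : ∀ y, (∀ v, ¬ Xd s S y v) → ¬ En s r (Xd s S) v y := by
    rintro y hy (h3 | ⟨-, -, c, -, -, h3⟩)
    · exact hy _ (h.w.sd.symm _ _ h3)
    · exact hy _ (h.w.sd.symm _ _ h3)
  obtain ⟨b, hb⟩ := h.w.cov v
  have e2 : fd S v x ↔ fd S v x' := by
    rw [h.w.fli b a v x hb (Or.inr hx), h.w.fli b a v x' hb (Or.inr hx')]
    exact and_congr (iff_of_true h1 h2) Iff.rfl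
  rw [iff_of_false (e1 x hx.1) (e1 x' hx'.1), e2]

variable (r s f) in
/-- all vertices are definable over the graph, up to twins -/
def gtF (hr : 1 ≤ r) (hf : ∀ a b, f a b → f b a) : MC.Gt (itp r s f) where
  K := Kn r
  wd := Kn.wd
  χ := fun κ S x w => κ.ch f (Xd s S) (fd S) x w
  fd := fun κ => by
    rcases κ with _ | i | a
    · exact ((fd2_Xd s).big _ _).and (FD.eq (Sum.inr (0 : Fin 1)) (Sum.inl ()))
    · refine FD.ex (β := Fin (2 * r + 1)) (P := fun S v (p : Fin (2 * r + 1) → ℕ) =>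
        Pth (2 * r) (Xd s S) (v (Sum.inr (0 : Fin 2))) p (v (Sum.inr (1 : Fin 2))) ∧
          p i = v (Sum.inl ())) ?_
      exact ((fd2_Xd s).pth (2 * r) _ _ _).and (FD.eq _ _)
    · exact (FD.all1 (P := fun S v u => ¬ Xd s S (v (Sum.inl ())) u) (fd2_Xd s _ _ _).not).and
        ((fd2_Xd s).tt fd2_fd r f a _ _)
  dom := fun κ S x w h hx j => by
    rcases κ with _ | i | a
    · have hj : j = (0 : Fin 1) := Subsingleton.elim (α := Fin 1) _ _
      rw [hj]
      show Big (Xd s S) (w (0 : Fin 1))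
      rw [hx.2]
      exact hx.1
    · obtain ⟨p, hp, -⟩ := hx
      have hj : j = (0 : Fin 2) ∨ j = (1 : Fin 2) := by
        have : ∀ j : Fin 2, j = 0 ∨ j = 1 := by decide
        exact this j
      rcases hj with hj | hj
      · rw [hj]
        exact hp.bw
      · rw [hj]
        exact hp.bw'
    · exact j.elim0
  fin := fun κ S x h => h.w.fin x κ
  fx := fun κ S x x' w h hx hx' hne => by
    rcases κ with _ | i | a
    · exact absurd (hx.2.symm.trans hx'.2) hne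
    · obtain ⟨p, hp, e1⟩ := hx
      obtain ⟨q, hq, e2⟩ := hx'
      exact absurd (by rw [← e1, ← e2, h.w.sd.uq _ _ _ _ hp hq]) hne
    · refine ⟨?_, ?_, h.swap hr hf hx hx'⟩
      · rintro ⟨b, _, _, _, _, _, h2, _⟩
        exact hx.1 b h2
      · rintro ⟨b, _, _, _, _, _, h2, _⟩
        exact hx'.1 b h2
  tot := fun S h x => h.w.kinds x
  up := fun S S' h h' π hπ => by
    obtain ⟨e, h1, h2, h3⟩ := W1.ext0 h.w h'.w π
      (fun u v => hπ FirstOrder.Language.graphRel.adj (fun m => if m = 0 then u else v))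
    obtain ⟨g, hg⟩ := MC.iso_gd (S := S) (S' := S') e fun u v => by
      rw [h.eq, h'.eq]
      unfold flip
      rw [← en_map e h1 s u v, ← h2]
    exact ⟨g, fun u hu => (hg u).trans (h3 u hu)⟩

open Pool.Agent.TH686.MC in
/-- the reduction of Martin's conjecture -/
theorem martinF (hr : 1 ≤ r) (hf : ∀ a b, f a b → f b a)
    (hV : ∀ T' : LG.Theory, T'.IsComplete → FewCountableModels T' → (∀ S : LG.Structure ℕ,
      @Theory.Model LG ℕ S T' → WF r s f S) → MartinN T') (T : LG.Theory)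
    (hfew : FewCountableModels T)
    (hT : ∀ S : LG.Structure ℕ, @Theory.Model LG ℕ S T → (∀ u v, gd S u v → gd S v u) ∧
      (∀ u, ¬ gd S u u) ∧ ∀ u, Big (gd S) u) :
    MartinN T := by
  have := StD.countable_LG
  refine MC.transferF (tq (itp r s f)) (gtF r s f hr hf).sup T hfew (fun M hM => ?_)
    fun T' h1 h2 h3 => hV T' h1 h2 h3
  obtain ⟨h1, h2, h3⟩ := hT M hM
  obtain ⟨S, h4, h5⟩ := ex (s := s) hr hf M h1 h2 h3
  refine ⟨S, h4, ?_⟩
  rw [D_tq]
  exact h5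

end

end Pool.Agent.TH783.FC
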