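import Pool.Agent.TH783.MC.Gt
import Pool.Agent.TH783.MD.Itp

set_option autoImplicit false
set_option linter.unusedSectionVars false

/-! Supports in the graphs over pairs of dense linear orders. -/

namespace Pool.Agent.TH783.MD

open FirstOrder FirstOrder.Language
open Pool.Agent.TH783.FC (Tw Iz Mt Fl Un flip FD1 FD2 fd2_gd)
open Pool.Agent.W889.FO
open Pool.Agent.W889.FO.StE (LG gd siso_gd)
open Pool.Agent.W889.VC (DLO)
open Pool.Agent.TH686.FO (L2 R2 g1 g2)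
open Pool.Agent.TH686.DO (DL1)

section rep

variable {r : ℕ} {f : ℕ → ℕ → Prop} {X fl : ℕ → ℕ → Prop}

/-- the representation in which the points are themselves -/
theorem W2.rep0 (h : W2 r f X fl) (hr : 1 ≤ r) : ∃ e : Tk {x // Dm X x} r ≃ ℕ,
    (∀ u v, SY false (fun x y : {x // Dm X x} => O1 X x y)
      (fun x y : {x // Dm X x} => O2 r X x y) u v ↔ X (e u) (e v)) ∧
    (∀ u v, flT f u v ↔ fl (e u) (e v)) ∧ ∀ q : {x // Dm X x}, e (pt0 hr q) = q := by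
  obtain ⟨e, h3, h4⟩ := h.rep
  obtain ⟨x, hx⟩ := h.pt
  have : Nonempty {x // Dm X x} := ⟨⟨x, hx⟩⟩
  have hD : ∀ q : {x // Dm X x}, Dm X (e (pt0 hr q)) := fun q =>
    (dm_map e h3 _).1 ((dm_iff hr h.d1 h.d2).2 ⟨q, rfl⟩)
  obtain ⟨θ, hθ⟩ : ∃ θ : {x // Dm X x} ≃ {x // Dm X x}, ∀ q, (θ q : ℕ) = e (pt0 hr q) := by
    refine ⟨Equiv.ofBijective (fun q => ⟨e (pt0 hr q), hD q⟩) ⟨fun q q' hq => ?_, ?_⟩,
      fun q => rfl⟩
    · exact pt0_inj hr (e.injective (congrArg Subtype.val hq))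
    · rintro ⟨y, hy⟩
      obtain ⟨u, rfl⟩ := e.surjective y
      obtain ⟨q, rfl⟩ := (dm_iff hr h.d1 h.d2).1 ((dm_map e h3 _).2 hy)
      exact ⟨q, rfl⟩
  have k1 : ∀ x y : {x // Dm X x}, O1 X (θ x) (θ y) ↔ O1 X x y := by
    intro x y
    rw [hθ, hθ, ← o1_map e h3, o1_iff hr h.d1 h.d2]
  have k2 : ∀ x y : {x // Dm X x}, O2 r X (θ x) (θ y) ↔ O2 r X x y := by
    intro x y
    rw [hθ, hθ, ← o2_map e h3, o2_iff hr h.d1 h.d2]
  refine ⟨(Tk.map θ.symm).trans e, fun u v => ?_, fun u v => ?_, fun q => ?_⟩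
  · refine Iff.trans ?_ (h3 _ _)
    refine sy_tkmap θ.symm (fun x y => ?_) (fun x y => ?_) u v
    · have := k1 (θ.symm x) (θ.symm y)
      rwa [θ.apply_symm_apply, θ.apply_symm_apply] at this
    · have := k2 (θ.symm x) (θ.symm y)
      rwa [θ.apply_symm_apply, θ.apply_symm_apply] at this
  · refine Iff.trans ?_ (h4 _ _)
    unfold flT
    rw [(Tk.map θ.symm).injective.ne_iff, lay_tkmap, lay_tkmap]
  · show e (pt0 hr (θ.symm q)) = q
    rw [← hθ, θ.apply_symm_apply]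

/-- the isomorphism extends the isomorphism of the points -/
theorem W2.ext0 {X' fl' : ℕ → ℕ → Prop} (h : W2 r f X fl) (h' : W2 r f X' fl') (hr : 1 ≤ r)
    (π : {x // Dm X x} ≃ {x // Dm X' x})
    (h1 : ∀ x y : {x // Dm X x}, O1 X x y ↔ O1 X' (π x) (π y))
    (h2 : ∀ x y : {x // Dm X x}, O2 r X x y ↔ O2 r X' (π x) (π y)) :
    ∃ e : ℕ ≃ ℕ, (∀ u v, X u v ↔ X' (e u) (e v)) ∧ (∀ u v, fl u v ↔ fl' (e u) (e v)) ∧
      ∀ x (hx : Dm X x), e x = π ⟨x, hx⟩ := by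
  obtain ⟨e, h3, h4, h5⟩ := h.rep0 hr
  obtain ⟨e', h3', h4', h5'⟩ := h'.rep0 hr
  refine ⟨(e.symm.trans (Tk.map π)).trans e', fun u v => ?_, fun u v => ?_, fun x hx => ?_⟩
  · obtain ⟨u, rfl⟩ := e.surjective u
    obtain ⟨v, rfl⟩ := e.surjective v
    rw [← h3]
    show _ ↔ X' (e' (Tk.map π (e.symm (e u)))) (e' (Tk.map π (e.symm (e v))))
    rw [← h3', e.symm_apply_apply, e.symm_apply_apply]
    exact sy_tkmap π h1 h2 u v
  · obtain ⟨u, rfl⟩ := e.surjective u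
    obtain ⟨v, rfl⟩ := e.surjective v
    rw [← h4]
    show _ ↔ fl' (e' (Tk.map π (e.symm (e u)))) (e' (Tk.map π (e.symm (e v))))
    rw [← h4', e.symm_apply_apply, e.symm_apply_apply]
    unfold flT
    rw [(Tk.map π).injective.ne_iff, lay_tkmap, lay_tkmap]
  · have h6 : e.symm x = pt0 hr ⟨x, hx⟩ := by
      rw [Equiv.symm_apply_eq, h5]
    show e' (Tk.map π (e.symm x)) = _
    rw [h6]
    exact h5' (π ⟨x, hx⟩)

/-- kinds of vertices -/
inductive Kn (r : ℕ) : Type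
  | p (k : Kd r) : Kn r
  | e : Kn r
  | f : Kn r
  | z (a : Fin (r + 2)) : Kn r

/-- number of points in the support -/
def Kn.wd : Kn r → ℕ
  | Kn.p _ => 1
  | _ => 0

/-- the vertex of a kind over a point -/
def Kn.ch (f : ℕ → ℕ → Prop) (X fl : ℕ → ℕ → Prop) (x : ℕ) : (κ : Kn r) → (Fin κ.wd → ℕ) → Prop
  | Kn.p k, w => At X k x (w (⟨0, Nat.one_pos⟩ : Fin 1))
  | Kn.e, _ => Es X x
  | Kn.f, _ => Fs X x
  | Kn.z a, _ => ¬ Nz X x ∧ TT r f X fl x a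

theorem W2.ndz (h : W2 r f X fl) {x : ℕ} (hx : ¬ Nz X x) : ¬ Dm X x := by
  rintro ⟨-, u, -, hu⟩
  exact hx ⟨u, h.sy _ _ hu⟩

theorem W2.nef (h : W2 r f X fl) (hr : 1 ≤ r) {x : ℕ} (hx : Dm X x) : ¬ Es X x ∧ ¬ Fs X x :=
  h.dj (Kd.c ⟨0, hr⟩) x x ⟨hx, rfl⟩

/-- adjacency to the roots and the isolated vertices -/
theorem W2.root_x (h : W2 r f X fl) {κ : Kn r} (hκ : ∀ k, κ ≠ Kn.p k) {x x' : ℕ}
    {w w' : Fin κ.wd → ℕ} (hx : κ.ch f X fl x w) (hx' : κ.ch f X fl x' w') (v : ℕ) :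
    X v x ↔ X v x' := by
  have hs : ∀ u v, X u v ↔ X v u := fun u v => ⟨h.sy _ _, h.sy _ _⟩
  rcases κ with k | _ | _ | a
  · exact absurd rfl (hκ k)
  · have h1 : Es X x := hx
    have h2 : Es X x' := hx'
    by_cases hv : Nz X v
    · rcases h.cov v hv with h3 | h3 | ⟨k, y, h3⟩
      · exact iff_of_false (h.ef _ _ (Or.inl h3) (Or.inl h1)) (h.ef _ _ (Or.inl h3) (Or.inl h2))
      · exact iff_of_false (h.ef _ _ (Or.inr h3) (Or.inl h1)) (h.ef _ _ (Or.inr h3) (Or.inl h2))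
      · rw [hs v x, hs v x', h.eA k x v y h1 h3, h.eA k x' v y h2 h3]
    · exact iff_of_false (fun h3 => hv ⟨_, h3⟩) (fun h3 => hv ⟨_, h3⟩)
  · have h1 : Fs X x := hx
    have h2 : Fs X x' := hx'
    by_cases hv : Nz X v
    · rcases h.cov v hv with h3 | h3 | ⟨k, y, h3⟩
      · exact iff_of_false (h.ef _ _ (Or.inl h3) (Or.inr h1)) (h.ef _ _ (Or.inl h3) (Or.inr h2))
      · exact iff_of_false (h.ef _ _ (Or.inr h3) (Or.inr h1)) (h.ef _ _ (Or.inr h3) (Or.inr h2))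
      · rw [hs v x, hs v x', h.fB k x v y h1 h3, h.fB k x' v y h2 h3]
    · exact iff_of_false (fun h3 => hv ⟨_, h3⟩) (fun h3 => hv ⟨_, h3⟩)
  · exact iff_of_false (fun h3 => hx.1 ⟨_, h.sy _ _ h3⟩) (fun h3 => hx'.1 ⟨_, h.sy _ _ h3⟩)

/-- the layer of a kind -/
theorem W2.root_la (_ : W2 r f X fl) (hr : 1 ≤ r) {κ : Kn r} (hκ : ∀ k, κ ≠ Kn.p k) :
    ∃ a : Fin (r + 2), ∀ (x : ℕ) (w : Fin κ.wd → ℕ), κ.ch f X fl x w → La r f X fl x a := by
  rcases κ with k | _ | _ | a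
  · exact absurd rfl (hκ k)
  · exact ⟨⟨1, by omega⟩, fun x w hx => Or.inl (Or.inr (Or.inl ⟨hx, rfl⟩))⟩
  · exact ⟨⟨r, by omega⟩, fun x w hx => Or.inl (Or.inr (Or.inr ⟨hx, rfl⟩))⟩
  · exact ⟨a, fun x w hx => Or.inr hx⟩

theorem W2.root_fl (h : W2 r f X fl) (hr : 1 ≤ r) {κ : Kn r} (hκ : ∀ k, κ ≠ Kn.p k) {x x' : ℕ}
    {w w' : Fin κ.wd → ℕ} (hx : κ.ch f X fl x w) (hx' : κ.ch f X fl x' w') {v : ℕ}
    (h1 : v ≠ x) (h2 : v ≠ x') : fl v x ↔ fl v x' := by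
  obtain ⟨a, ha⟩ := h.root_la hr hκ
  obtain ⟨b, hb⟩ := h.cv v
  rw [h.fli b a v x hb (ha _ _ hx), h.fli b a v x' hb (ha _ _ hx')]
  exact and_congr (iff_of_true h1 h2) Iff.rfl

theorem W2.root_dm (h : W2 r f X fl) (hr : 1 ≤ r) {κ : Kn r} (hκ : ∀ k, κ ≠ Kn.p k) {x : ℕ}
    {w : Fin κ.wd → ℕ} (hx : κ.ch f X fl x w) : ¬ Dm X x := by
  rcases κ with k | _ | _ | a
  · exact absurd rfl (hκ k)
  · exact fun hd => (h.nef hr hd).1 hx
  · exact fun hd => (h.nef hr hd).2 hx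
  · exact h.ndz hx.1

/-- every vertex has a kind -/
theorem W2.kinds (h : W2 r f X fl) (x : ℕ) : ∃ (κ : Kn r) (w : Fin κ.wd → ℕ),
    κ.ch f X fl x w := by
  by_cases hx : Nz X x
  · rcases h.cov x hx with h1 | h1 | ⟨k, y, h1⟩
    · exact ⟨Kn.e, Fin.elim0, h1⟩
    · exact ⟨Kn.f, Fin.elim0, h1⟩
    · exact ⟨Kn.p k, fun _ => y, h1⟩
  · obtain ⟨a, ha⟩ := h.tt hx
    exact ⟨Kn.z a, Fin.elim0, hx, ha⟩

end rep

section sup

variable {r : ℕ} {s : Bool} {f : ℕ → ℕ → Prop} {S S' : LG.Structure ℕ}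

theorem WS.sy (h : WS r s f S) (hr : 1 ≤ r) (hf : ∀ a b, f a b → f b a)
    (hs : s = true → r = 1) (u v : ℕ) (huv : gd S u v) : gd S v u := by
  obtain ⟨Q, _, _, o1, o2, d1, d2, e, he⟩ := h.std hr hs
  rw [he] at huv ⊢
  have h1 : SY s o1 o2 (e u) (e v) ↔ SY s o1 o2 (e v) (e u) := ⟨sy_symm, sy_symm⟩
  have h2 : flT f (e u) (e v) ↔ flT f (e v) (e u) :=
    ⟨fun h => ⟨h.1.symm, hf _ _ h.2⟩, fun h => ⟨h.1.symm, hf _ _ h.2⟩⟩
  unfold FC.flip at huv ⊢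
  rwa [← h1, ← h2]

theorem WS.irr (h : WS r s f S) (hr : 1 ≤ r) (hs : s = true → r = 1) (u : ℕ) :
    ¬ gd S u u := by
  obtain ⟨Q, _, _, o1, o2, d1, d2, e, he⟩ := h.std hr hs
  rw [he]
  unfold FC.flip
  rw [not_not]
  exact iff_of_false (sy_irr d1 _) (fun h => h.1 rfl)

/-- twins -/
theorem WS.swap (h : WS r s f S) (hr : 1 ≤ r) (hf : ∀ a b, f a b → f b a)
    (hs : s = true → r = 1) {κ : Kn r} (hκ : ∀ k, κ ≠ Kn.p k) {x x' : ℕ}
    {w w' : Fin κ.wd → ℕ} (hx : κ.ch f (Xd s S) (fd S) x w)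
    (hx' : κ.ch f (Xd s S) (fd S) x' w') :
    ∃ g : @FirstOrder.Language.Equiv LG ℕ ℕ S S, ∀ y, g y = Equiv.swap x x' y := by
  refine MC.swap_gd (h.sy hr hf hs) (h.irr hr hs) fun v h1 h2 => ?_
  have d1 := h.w.root_dm hr hκ hx
  have d2 := h.w.root_dm hr hκ hx'
  rw [h.eq, h.eq]
  unfold FC.flip
  have e1 : En s r (Xd s S) v x ↔ En s r (Xd s S) v x' := by
    unfold En
    rw [h.w.root_x hκ hx hx' v]
    exact or_congr Iff.rfl (iff_of_false (fun h => d1 h.2.2.1) (fun h => d2 h.2.2.1))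
  rw [e1, h.w.root_fl hr hκ hx hx' h1 h2]

variable (r s f) in
/-- all vertices are definable over the pair of orders, up to twins -/
def gtS (hr : 1 ≤ r) (hf : ∀ a b, f a b → f b a) (hs : s = true → r = 1) :
    MC.Gt (itp r s f) where
  K := Kn r
  wd := Kn.wd
  χ := fun κ S x w => κ.ch f (Xd s S) (fd S) x w
  fd := fun κ => by
    rcases κ with k | _ | _ | a
    · exact fd_at (fd2_Xd s) k _ _ _
    · exact fd_es (fd2_Xd s) _ _
    · exact fd_fs (fd2_Xd s) _ _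
    · exact (fd_nz (fd2_Xd s) _ _).not.and (fd_tt (fd2_Xd s) fd2_fd r f a _ _)
  dom := fun κ S x w h hx j => by
    rcases κ with k | _ | _ | a
    · have hj : j = (⟨0, Nat.one_pos⟩ : Fin 1) := Subsingleton.elim (α := Fin 1) _ _
      rw [hj]
      have hx : At (Xd s S) k x (w (⟨0, Nat.one_pos⟩ : Fin 1)) := hx
      rcases k with _ | _ | t
      · exact hx.1
      · exact hx.1
      · exact hx.1
    all_goals exact j.elim0
  fin := fun κ S x h => by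
    refine Set.Subsingleton.finite fun w hx w' hx' => ?_
    rcases κ with k | _ | _ | a
    · have hx : At (Xd s S) k x (w (⟨0, Nat.one_pos⟩ : Fin 1)) := hx
      have hx' : At (Xd s S) k x (w' (⟨0, Nat.one_pos⟩ : Fin 1)) := hx'
      funext j
      have hj : j = (⟨0, Nat.one_pos⟩ : Fin 1) := Subsingleton.elim (α := Fin 1) _ _
      rw [hj]
      exact (h.w.ij k k _ _ _ hx hx').2
    all_goals exact funext fun j => j.elim0
  fx := fun κ S x x' w h hx hx' hne => by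
    have hκ : ∀ k, κ ≠ Kn.p k := by
      rintro k rfl
      exact hne (h.w.uq k _ _ _ hx hx')
    exact ⟨h.w.root_dm hr hκ hx, h.w.root_dm hr hκ hx', h.swap hr hf hs hκ hx hx'⟩
  tot := fun S h x => h.w.kinds x
  up := fun S S' h h' π hπ => by
    obtain ⟨e, h1, h2, h3⟩ := W2.ext0 h.w h'.w hr π
      (fun u v => hπ R2.fst (fun m => if m = 0 then u else v))
      (fun u v => hπ R2.snd (fun m => if m = 0 then u else v))
    obtain ⟨g, hg⟩ := MC.iso_gd (S := S) (S' := S') e fun u v => by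
      rw [h.eq, h'.eq]
      unfold FC.flip
      rw [← en_map e h1 s u v, ← h2]
    exact ⟨g, fun u hu => (hg u).trans (h3 u hu)⟩

open Pool.Agent.TH686.MC in
/-- the reduction of Martin's conjecture -/
theorem martinS (hr : 1 ≤ r) (hf : ∀ a b, f a b → f b a) (hs : s = true → r = 1)
    (hV : ∀ T' : LG.Theory, T'.IsComplete → FewCountableModels T' → (∀ S : LG.Structure ℕ,
      @Theory.Model LG ℕ S T' → WS r s f S) → MartinN T') (T : L2.Theory)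
    (hfew : FewCountableModels T)
    (hT : ∀ S : L2.Structure ℕ, @Theory.Model L2 ℕ S T → DL1 (g1 S) ∧ DL1 (g2 S)) :
    MartinN T := by
  have := Pool.Agent.TH686.FO.countable_L2
  have := StD.countable_LG
  refine MC.transferF (tq (itp r s f)) (gtS r s f hr hf hs).sup T hfew (fun M hM => ?_)
    fun T' h1 h2 h3 => hV T' h1 h2 h3
  obtain ⟨h1, h2⟩ := hT M hM
  obtain ⟨S, h3, h4⟩ := ex hr hf hs M h1 h2
  refine ⟨S, h3, ?_⟩
  rw [D_tq]
  exact h4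

end sup

end Pool.Agent.TH783.MD
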